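import Pool.Agent.J6H17.RF.StmN

/-!
# RFN-TH: the theory of the strings `(Pr, n, m)` is a theory
-/

set_option autoImplicit false

namespace Pool.Agent.J6H63.RFN.Th

open Pool.Agent.NPC Pool.Agent.H628R3.RO Pool.Agent.J6H17.RF

/-- the string `w` for which the tree may be that of `x_c = x_c → ψ`, `c` the number of `w` -/
def wT (t : T) : List Bool :=
  match (TDec.dec t.tl.hd.tl.hd.tl : Option ℕ) with
  | none => []
  | some c => (c.bits.reverse.tail).reverse

/-- the string `w` for which the string may be the code of `x_c = x_c → ψ` -/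
def wOf (y : List Bool) : List Bool :=
  match parse y with
  | none => []
  | some t => wT t

theorem poly_wT : Poly wT :=
  (Poly.optCases (o := fun t : T => (TDec.dec t.tl.hd.tl.hd.tl : Option ℕ))
    (g := fun _ => ([] : List Bool)) (h := fun _ c => (c.bits.reverse.tail).reverse)
    (TDec.poly_dec.comp (Poly.tl (Poly.hd (Poly.tl (Poly.hd (Poly.tl Poly.id))))))
    (Pool.Agent.NPC.Poly.const _)
    (Poly.reverse (Poly.tail (Poly.reverse (Poly.natBits (Poly.snd Poly.id)))))).congr fun t => by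
      unfold wT; cases (TDec.dec t.tl.hd.tl.hd.tl : Option ℕ) <;> rfl

theorem poly_wOf : Poly wOf :=
  (Poly.optCases (o := parse) (g := fun _ => ([] : List Bool)) (h := fun _ t => wT t)
    poly_parse (Pool.Agent.NPC.Poly.const _) (poly_wT.comp (Poly.snd Poly.id))).congr fun y => by
      unfold wOf; cases parse y <;> rfl

/-- the axiom of the string `w` -/
def ax (μ : Fm) (w : List Bool) (n : ℕ) (Pr : Fm) : Fm :=
  (Fm.eq (.var (codeN w)) (.var (codeN w))).imp (rfn Pr μ n)

theorem code_ax (μ : Fm) (w : List Bool) (n : ℕ) (Pr : Fm) :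
    ((toT (ax μ w n Pr)).tl.hd.tl.hd.tl : T) = toT (codeN w) := rfl

theorem wOf_ax (h : ∀ w : List Bool, (codeN w).bits = w ++ [true]) (μ : Fm) (w : List Bool)
    (n : ℕ) (Pr : Fm) : wOf (bits (ax μ w n Pr)) = w := by
  have h1 : parse (bits (ax μ w n Pr)) = some (toT (ax μ w n Pr)) := parse_enc _
  unfold wOf
  rw [h1]
  change wT (toT (ax μ w n Pr)) = w
  unfold wT
  rw [code_ax, TDec.dec_toT]
  change ((codeN w).bits.reverse.tail).reverse = w
  rw [h w]
  simp

/-- the tree of an implication -/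
def cI (s t : T) : T := T.node (toT (4 : ℕ)) (T.node s t)

/-- the tree of a universal formula -/
def cA (i : ℕ) (t : T) : T := T.node (toT (5 : ℕ)) (T.node (toT i) t)

/-- the tree of the axiom of the string `w`, computed from the tree `t` of the formula `Pr` -/
def axT (μ : Fm) (w : List Bool) (n : ℕ) (t : T) : T :=
  cI (toT (Fm.eq (.var (codeN w)) (.var (codeN w)))) (cA 0 (cA 1 (cA 2 (cA 3
    (cI (toT (Fm.le (.len (.var 0)) (num n))) (cI (toT (Fm.le (.len (.var 1)) (num n)))
      (cI (toT (Fm.le (.len (.var 2)) (num n))) (cI (toT (Fm.le (.len (.var 3)) (num n)))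
        (cI t (toT μ))))))))))

theorem axT_toT (μ : Fm) (w : List Bool) (n : ℕ) (Pr : Fm) :
    axT μ w n (toT Pr) = toT (ax μ w n Pr) := rfl

theorem poly_cI {α : Type} [TEnc α] {f g : α → T} (hf : Poly f) (hg : Poly g) :
    Poly (fun a => cI (f a) (g a)) :=
  Poly.node (Pool.Agent.NPC.Poly.const _) (Poly.node hf hg)

theorem poly_cA {α : Type} [TEnc α] {f : α → T} (i : ℕ) (hf : Poly f) :
    Poly (fun a => cA i (f a)) :=
  Poly.node (Pool.Agent.NPC.Poly.const _) (Poly.node (Pool.Agent.NPC.Poly.const _) hf)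

theorem poly_axT (h1 : S_NUM) (h2 : S_SPOLY) (μ : Fm) {α : Type} [TEnc α] {w : α → List Bool}
    {n : α → ℕ} {t : α → T} (hw : Poly w) (hn : Poly n) (ht : Poly t) :
    Poly (fun a => axT μ (w a) (n a) (t a)) := by
  obtain ⟨hnum, hcode, -⟩ := h1
  obtain ⟨-, -, -, heq, hle, hlen, hvar⟩ := h2
  have hc : Poly (fun a => Tm.var (codeN (w a))) := hvar _ _ (hcode.comp hw)
  have hb : ∀ i : ℕ, Poly (fun a => toT (Fm.le (.len (.var i)) (num (n a)))) := fun i =>
    Poly.toT' (hle _ _ _ (hlen _ _ (Pool.Agent.NPC.Poly.const _)) (hnum.comp hn))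
  exact poly_cI (Poly.toT' (heq _ _ _ hc hc)) (poly_cA 0 (poly_cA 1 (poly_cA 2 (poly_cA 3
    (poly_cI (hb 0) (poly_cI (hb 1) (poly_cI (hb 2) (poly_cI (hb 3)
      (poly_cI ht (Pool.Agent.NPC.Poly.const _))))))))))

/-- the tree of the first component -/
def prT (v : List Bool) : T := (parse (unpair v).1).getD T.nil

/-- the number `n` of the string `trp Pr n m` -/
def nT (v : List Bool) : ℕ := (unpair (unpair v).2).1.length

theorem prT_trp (Pr : Fm) (n m : ℕ) : prT (trp Pr n m) = toT Pr := by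
  have h1 : parse (bits Pr) = some (toT Pr) := parse_enc _
  simp only [prT, trp, unpair_pairBits, h1, Option.getD_some]

theorem nT_trp (Pr : Fm) (n m : ℕ) : nT (trp Pr n m) = n := by
  simp only [nT, trp, unpair_pairBits, List.length_replicate]

theorem poly_prT : Poly prT :=
  (Poly.optCases (o := fun v : List Bool => parse (unpair v).1) (g := fun _ => T.nil)
    (h := fun _ t => t) (poly_parse.comp (Poly.fst poly_unpair)) (Pool.Agent.NPC.Poly.const _)
    (Poly.snd Poly.id)).congr fun v => by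
      unfold prT; cases parse (unpair v).1 <;> rfl

theorem poly_nT : Poly nT :=
  Poly.length (Poly.fst (poly_unpair.comp (Poly.snd poly_unpair)))

/-- the test of a string `y`; the arguments are the verdict of the base theory, `w`, `P w` -/
def test (μ : Fm) (y b w v : List Bool) : List Bool :=
  if b = [true] then [true] else
    if parse y = some (axT μ w (nT v) (prT v)) then [true] else []

theorem poly_test (h1 : S_NUM) (h2 : S_SPOLY) (μ : Fm) :
    Poly (fun p : List Bool × List Bool × List Bool × List Bool =>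
      test μ p.1 p.2.1 p.2.2.1 p.2.2.2) := by
  unfold test
  refine Poly.ite (Poly.decide_eq (Poly.fst (Poly.snd Poly.id)) (Pool.Agent.NPC.Poly.const _))
    (Pool.Agent.NPC.Poly.const _) ?_
  refine Poly.ite (Poly.decide_eq (poly_parse.comp (Poly.fst Poly.id))
    (Poly.some (poly_axT h1 h2 μ ?_ ?_ ?_))) (Pool.Agent.NPC.Poly.const _)
    (Pool.Agent.NPC.Poly.const _)
  · exact Poly.fst (Poly.snd (Poly.snd Poly.id))
  · exact poly_nT.comp (Poly.snd (Poly.snd (Poly.snd Poly.id)))
  · exact poly_prT.comp (Poly.snd (Poly.snd (Poly.snd Poly.id)))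

/-- RFN-TH. -/
theorem main (h1 : S_NUM) (h2 : S_SPOLY) (h3 : S_OPC) : S_NTH := by
  intro A B μ P hB hP hPt
  obtain ⟨hlog, D, hD, hDB⟩ := hB
  refine ⟨fun φ hφ => Or.inl (hlog φ hφ), ?_⟩
  obtain ⟨hcomp, hpair, hpoly, hof, hto, -⟩ := h3 A
  refine ⟨fun y => test μ y (D y) (wOf y) (P (wOf y)), ?_, ?_⟩
  · apply hto
    have hw : OP A wOf := hpoly _ _ _ poly_wOf
    have hid : OP A (fun y : List Bool => y) := hpoly _ _ _ Poly.id
    have hgw : OP A (fun y => P (wOf y)) := hcomp _ _ _ _ _ hw (hof P hP)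
    have hall : OP A (fun y => (y, D y, wOf y, P (wOf y))) :=
      hpair _ _ _ _ _ hid (hpair _ _ _ _ _ (hof D hD) (hpair _ _ _ _ _ hw hgw))
    exact hcomp _ _ _ _ _ hall (hpoly _ _ _ (poly_test h1 h2 μ))
  · intro y
    constructor
    · intro h
      change test μ y (D y) (wOf y) (P (wOf y)) = [true] at h
      unfold test at h
      by_cases hb : D y = [true]
      · obtain ⟨φ, hφ, hy⟩ := (hDB y).1 hb
        exact ⟨φ, Or.inl hφ, hy⟩
      · rw [if_neg hb] at h
        obtain ⟨Pr, n, m, hPr⟩ := hPt (wOf y)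
        rw [hPr, nT_trp, prT_trp, axT_toT] at h
        by_cases hp : parse y = some (toT (ax μ (wOf y) n Pr))
        · exact ⟨ax μ (wOf y) n Pr, Or.inr ⟨wOf y, Pr, n, m, hPr, rfl⟩, enc_of_parse hp⟩
        · rw [if_neg hp] at h
          exact absurd h (by simp)
    · rintro ⟨φ, hφ | ⟨w, Pr, n, m, hgw, rfl⟩, rfl⟩
      · have hb : D (bits φ) = [true] := (hDB _).2 ⟨φ, hφ, rfl⟩
        simp only [test, hb, if_true]
      · have hw := wOf_ax h1.2.2 μ w n Pr
        change test μ (bits (ax μ w n Pr)) (D (bits (ax μ w n Pr))) (wOf (bits (ax μ w n Pr)))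
          (P (wOf (bits (ax μ w n Pr)))) = [true]
        by_cases hb : D (bits (ax μ w n Pr)) = [true]
        · simp only [test, hb, if_true]
        · have hp : parse (bits (ax μ w n Pr)) = some (toT (ax μ w n Pr)) := parse_enc _
          simp only [test, hw, hgw, nT_trp, prT_trp, axT_toT, hp, hb, if_false, if_true]

end Pool.Agent.J6H63.RFN.Th
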